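import Pool.Agent.Helper883.Dicut.MultiTotal
import Pool.Agent.Helper883.Dicut.LowerW

set_option autoImplicit false

namespace Pool.Agent.Results.MP_7cecc1_co.WeightedExact

open Pool.Agent.Helper883.Dicut

theorem alpha0_eq (C : (n : ℕ) → WDigraph n → Prop) (h : Admissible C (3/5))
    (hB : ∀ α, 0 < α → Admissible C α → α ≤ 3 / 5) : alpha0 C = 3 / 5 := by
  apply le_antisymm
  · apply Real.sSup_le
    · rintro α ⟨h1, h2⟩
      exact hB α h1 h2
    · norm_num
  · apply le_csSup
    · exact ⟨3 / 5, fun α hα => hB α hα.1 hα.2⟩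
    · exact ⟨by norm_num, h⟩

/-- The optimal exponent is exactly `3/5` for acyclic weighted digraphs with arc weights at least `1`
and for acyclic directed multigraphs. -/
theorem result : alpha0 ClassW = 3 / 5 ∧ alpha0 ClassM = 3 / 5 :=
  ⟨alpha0_eq _ admissible_W
      (fun α hα h => Multi.admissible_M_up α hα (h.mono (fun _ _ hw => classM_W hw))),
   alpha0_eq _ admissible_M Multi.admissible_M_up⟩

end Pool.Agent.Results.MP_7cecc1_co.WeightedExact
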